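import Pool.Agent.Zk39.LC.Null
import Pool.Agent.Results.MP_3e612f_nt.NullExtensions
import Pool.Agent.Results.MP_3e612f_nt.ArbitraryBase

/-!
# The logarithmically averaged Sarnak conjecture for linear cocycles (helper39)

Q1 is settled for all systems which are linear cocycles over almost periodic systems (rotations of compact abelian
groups, or almost periodic orbits of other systems), in every dimension and at every point, and over arbitrary systems
(also of positive entropy) for all points over most points of the base.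

Let `π : (X, T) → (Y, S)` be a factor map such that there are continuous functions `Φ_1, …, Φ_J : X → ℝ^n ∖ {0}` which
separate the points of each fibre up to positive factors, and on which `T` acts, on each fibre, by linear maps up to
positive factors (`LinearFibres`). Examples, with no assumption on Lyapunov exponents, on the regularity beyond
continuity or on the number of invariant measures:

* the action of a continuous cocycle `g : Y → GL_n(ℝ)` on the bundle of spheres, `(y, v) ↦ (S y, g(y) v / |g(y) v|)`;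
* its action on the projective bundle (`Φ` = the projection to the line, `P ↦ g P gᵀ` up to a positive factor), on the
  bundles of Grassmannians (exterior powers) and of flags (several `Φ_j`), and its complex analogues;
* cocycles of nonnegative matrices on the simplex, of completely positive maps on density matrices, of affine maps of
  a compact convex set `C` in `ℝ^n` (`Φ(z) = (1, z)`), of isometries of hyperbolic space on its closed ball, of Möbius
  transformations of the sphere `S^(n-1)` (light cone), …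

The reason is that the extension is null relative to the base: half-spaces have finite VC dimension, so by the
Sauer-Shelah lemma the orbits in one fibre have polynomially many patterns of visits to two disjoint closed sets. This
is used with the theorems on relatively null extensions of the starting files `NullExtensions` and `ArbitraryBase`. For
`n = 2` the fibres are circles and Part (D) of `NullExtensions` applies; for `n ≥ 3` there is no order on the fibres.

Part (D) states the result in terms of solutions of linear difference equations `v_(k+1) = g(a^k y) v_k`, for example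
of discrete almost periodic Schrödinger equations of any order: their directions `v_k / |v_k|` and the increments of
`log |v_k|` are orthogonal to the Möbius function.
-/

set_option autoImplicit false

open Finset Filter Topology

namespace Pool.Agent.Results.MP_3e612f_nt.LinearCocycles

open Pool.Agent.Zk39.LC
open Pool.Agent.Results.MP_3e612f_nt.NullExtensions (LogDensityZero AlmostPeriodic Conclusion skew LogSarnak Disjoint')

/-- the conclusion for most points of an arbitrary base (starting file `ArbitraryBase`) -/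
abbrev MostConclusion {X Y : Type} [TopologicalSpace Y] (E : Set ℕ) (S : Y → Y) (P : Set Y) (T : X → X) (π : X → Y)
    (F : X → ℂ) : Prop := Pool.Agent.Results.MP_3e612f_nt.ArbitraryBase.Conclusion E S P T π F

/-- (A) almost periodic base, linear fibres: all points above `P` -/
def PartA (E : Set ℕ) : Prop :=
  ∀ (X Y : Type) [TopologicalSpace X] [CompactSpace X] [TopologicalSpace Y] [CompactSpace Y] [T2Space Y]
    (S : Y → Y) (P : Set Y) (T : X → X) (π : X → Y) (J n : ℕ) (Φ : Fin J → X → Eu n), AlmostPeriodic S P →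
    Continuous T → Continuous π → (∀ x, π (T x) = S (π x)) → LinearFibres T π Φ →
    ∀ F : C(X, ℂ), Conclusion E S P T π F

/-- (B) arbitrary base, linear fibres: all points above most points of the base -/
def PartB (E : Set ℕ) : Prop :=
  ∀ (X Y : Type) [TopologicalSpace X] [CompactSpace X] [TopologicalSpace Y] [CompactSpace Y] [T2Space Y]
    (S : Y → Y) (P : Set Y) (T : X → X) (π : X → Y) (J n : ℕ) (Φ : Fin J → X → Eu n),
    Continuous T → Continuous π → (∀ x, π (T x) = S (π x)) → LinearFibres T π Φ →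
    ∀ F : C(X, ℂ), MostConclusion E S P T π F

/-- (C) skew products: `K` is a compact subset of `ℝ^n` which does not contain `0` and meets each ray from `0` at most once,
and `f_y(z)` is a positive multiple of the image of `z` under a linear map `g_y` -/
def PartC (E : Set ℕ) : Prop :=
  ∀ (Y : Type) [TopologicalSpace Y] [CompactSpace Y] [T2Space Y] (S : Y → Y) (P : Set Y) (n : ℕ) (K : Set (Eu n))
    (f : Y → K → K) (g : Y → Eu n →ₗ[ℝ] Eu n), IsCompact K → (0 : Eu n) ∉ K →
    (∀ z ∈ K, ∀ c : ℝ, 0 < c → c • z ∈ K → c = 1) → Continuous S → Continuous (fun x : Y × K => f x.1 x.2) →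
    (∀ y z, ∃ c : ℝ, 0 < c ∧ (f y z : Eu n) = c • g y z) →
    (AlmostPeriodic S P → ∀ F : C(Y × K, ℂ), Conclusion E S P (skew S f) Prod.fst F) ∧
    ∀ F : C(Y × K, ℂ), MostConclusion E S P (skew S f) Prod.fst F

/-- (D) solutions of linear difference equations: `Y` is a compact abelian group, `a` in `Y`, `g(y)` an invertible matrix
depending continuously on `y`, and `v_(k+1) = g(a^k y) v_k`. The directions `v_k / |v_k|` and the increments of `log |v_k|`
of all solutions are orthogonal to the Möbius function. -/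
def PartD (E : Set ℕ) : Prop :=
  ∀ (Y : Type) [CommGroup Y] [TopologicalSpace Y] [IsTopologicalGroup Y] [CompactSpace Y] [T2Space Y] (a : Y) (n : ℕ)
    (g : Y → Eu n →L[ℝ] Eu n), Continuous g → (∀ y, Function.Injective (g y)) →
    ∀ (y : Y) (v : ℕ → Eu n), v 0 ≠ 0 → (∀ k, v (k + 1) = g (a ^ k * y) (v k)) →
    (∀ F : Y × Eu n → ℂ, Continuous F →
      Tendsto (fun N : ℕ => (1 / (Real.log (N : ℝ) : ℂ)) * ∑ k ∈ Icc 1 N, F (a ^ k * y, ‖v k‖⁻¹ • v k) *
        ((ArithmeticFunction.moebius k : ℤ) : ℂ) / (k : ℂ)) atTop (𝓝 0) ∧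
      ∀ ε : ℝ, 0 < ε → ∃ N₀ : ℕ, ∀ N ≥ N₀, N ∉ E → ‖∑ k ∈ Icc 1 N, F (a ^ k * y, ‖v k‖⁻¹ • v k) *
        ((ArithmeticFunction.moebius k : ℤ) : ℂ)‖ ≤ ε * N) ∧
    Tendsto (fun N : ℕ => (1 / Real.log (N : ℝ)) * ∑ k ∈ Icc 1 N, Real.log (‖v (k + 1)‖ / ‖v k‖) *
      ((ArithmeticFunction.moebius k : ℤ) : ℝ) / (k : ℝ)) atTop (𝓝 0) ∧
    ∀ ε : ℝ, 0 < ε → ∃ N₀ : ℕ, ∀ N ≥ N₀, N ∉ E → |∑ k ∈ Icc 1 N, Real.log (‖v (k + 1)‖ / ‖v k‖) *
      ((ArithmeticFunction.moebius k : ℤ) : ℝ)| ≤ ε * N

lemma mono1 {X Y : Type} {E E' : Set ℕ} (h : E ⊆ E') {S : Y → Y} {P : Set Y} {T : X → X} {π : X → Y} {F : X → ℂ}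
    (hc : Conclusion E S P T π F) : Conclusion E' S P T π F := by
  have key : ∀ u : ℕ → ℤ, Disjoint' E u S P T π F → Disjoint' E' u S P T π F := by
    intro u hu ε hε
    obtain ⟨⟨N₁, h1⟩, ⟨H₀, h2⟩, h3⟩ := hu ε hε
    refine ⟨⟨N₁, fun N hN hNE => h1 N hN fun h4 => hNE (h h4)⟩, ⟨H₀, fun H hH => ?_⟩, h3⟩
    obtain ⟨N₂, h4⟩ := h2 H hH
    exact ⟨N₂, fun N hN hNE => h4 N hN fun h5 => hNE (h h5)⟩
  exact ⟨hc.1, key _ hc.2.1, key _ hc.2.2⟩

open Pool.Agent.Results.MP_3e612f_nt.ArbitraryBase (MostShifts MostPoints)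

lemma mono2 {X Y : Type} [TopologicalSpace Y] {E E' : Set ℕ} (h : E ⊆ E') {S : Y → Y} {P : Set Y} {T : X → X}
    {π : X → Y} {F : X → ℂ} (hc : MostConclusion E S P T π F) : MostConclusion E' S P T π F := by
  have key : ∀ u : ℕ → ℤ, MostShifts E u S P T π F → MostShifts E' u S P T π F := by
    intro u hu ε hε
    obtain ⟨⟨N₁, h1⟩, h3, ⟨H₀, h2⟩⟩ := hu ε hε
    refine ⟨⟨N₁, fun N hN hNE => h1 N hN fun h4 => hNE (h h4)⟩, h3, ⟨H₀, fun H hH => ?_⟩⟩
    obtain ⟨N₂, h4⟩ := h2 H hH
    exact ⟨N₂, fun N hN hNE => h4 N hN fun h5 => hNE (h h5)⟩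
  have key2 : ∀ u : ℕ → ℤ, MostPoints E u S T π F → MostPoints E' u S T π F := by
    intro u hu _ _ ε hε
    obtain ⟨N₀, h1⟩ := hu ε hε
    refine ⟨N₀, fun N hN ρ hρ hS => ⟨fun hNE => (h1 N hN ρ hρ hS).1 fun h4 => hNE (h h4), (h1 N hN ρ hρ hS).2⟩⟩
  exact ⟨key _ hc.1, key _ hc.2.1, fun hP => ⟨key2 _ (hc.2.2 hP).1, key2 _ (hc.2.2 hP).2⟩⟩

/-- ray sections have linear fibres -/
lemma section_fibres {Y : Type} [TopologicalSpace Y] {S : Y → Y} {n : ℕ} {K : Set (Eu n)} {f : Y → K → K}
    {g : Y → Eu n →ₗ[ℝ] Eu n} (h0 : (0 : Eu n) ∉ K) (hray : ∀ z ∈ K, ∀ c : ℝ, 0 < c → c • z ∈ K → c = 1)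
    (hf : ∀ y z, ∃ c : ℝ, 0 < c ∧ (f y z : Eu n) = c • g y z) :
    LinearFibres (skew S f) Prod.fst (fun (_ : Fin 1) (x : Y × K) => (x.2 : Eu n)) := by
  refine ⟨fun _ => continuous_subtype_val.comp continuous_snd, fun _ x h => h0 (h ▸ x.2.2), ?_, ?_⟩
  · rintro ⟨y, z⟩ ⟨y', z'⟩ h1 h2
    obtain ⟨c, hc, h3⟩ := h2 0
    simp only at h1 h3
    have h4 : c = 1 := hray z z.2 c hc (h3 ▸ z'.2)
    rw [h4, one_smul] at h3
    rw [h1, Subtype.ext h3.symm]
  · intro y _
    refine ⟨g y, ?_⟩
    rintro ⟨y', z⟩ rfl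
    exact hf y' z


lemma null1 {X Y : Type} [TopologicalSpace X] [CompactSpace X] [TopologicalSpace Y] [T2Space Y] {S : Y → Y}
    {T : X → X} {π : X → Y} {J n : ℕ} {Φ : Fin J → X → Eu n} (hπ : Continuous π) (h : ∀ x, π (T x) = S (π x))
    (hΦ : LinearFibres T π Φ) (P : Set Y) (A B : Set X) (hA : IsClosed A) (hB : IsClosed B) (hAB : Disjoint A B)
    (δ : ℝ) (hδ : 0 < δ) : ∃ (d : ℕ) (G : Set Y), IsClosed G ∧
      (∃ N₀ : ℕ, ∀ N ≥ N₀, ∀ y ∈ P, ∃ V : Finset ℕ, (∀ n < N, S^[n] y ∉ G → n ∈ V) ∧ (V.card : ℝ) ≤ δ * N) ∧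
      ∀ y ∈ G, ∀ m : Fin d → ℕ, ∃ τ : Fin d → Bool, ∀ x, π x = y → ∃ i, T^[m i] x ∉ (if τ i then A else B) := by
  obtain ⟨d, hd⟩ := null hπ h hΦ A B hA hB hAB
  refine ⟨d, Set.univ, isClosed_univ, ⟨0, fun N _ y _ => ⟨∅, fun n _ h => absurd (Set.mem_univ _) h, ?_⟩⟩,
    fun y _ m => hd y m⟩
  rw [card_empty, Nat.cast_zero]
  positivity

lemma rotation {Y : Type} [CommGroup Y] [TopologicalSpace Y] [IsTopologicalGroup Y] [CompactSpace Y] [T2Space Y]
    (a : Y) : AlmostPeriodic (fun y => a * y) (Set.univ : Set Y) := by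
  intro c ε hε
  obtain ⟨J, N₀, h⟩ := Pool.Agent.R296.RE.UAP_rot a Set.univ c ε hε
  exact ⟨J, N₀, fun N hN y hy => h N hN _ ⟨y, hy, rfl⟩⟩

/-- the conclusions of (D) for one continuous function on the product with the sphere -/
lemma concl_sphere {Y : Type} [CommGroup Y] [TopologicalSpace Y] [IsTopologicalGroup Y] [CompactSpace Y]
    [T2Space Y] {E : Set ℕ} (hC : PartC E) (a : Y) {n : ℕ} {g : Y → Eu n →L[ℝ] Eu n} (hg : Continuous g)
    (hinj : ∀ y, Function.Injective (g y)) {y : Y} {v : ℕ → Eu n} (hv : v 0 ≠ 0)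
    (hrec : ∀ k, v (k + 1) = g (a ^ k * y) (v k)) (F : C(Y × Metric.sphere (0 : Eu n) 1, ℂ)) :
    ∃ w : ℕ → Metric.sphere (0 : Eu n) 1, (∀ k, (w k : Eu n) = ‖v k‖⁻¹ • v k) ∧
      Tendsto (fun N : ℕ => (1 / (Real.log (N : ℝ) : ℂ)) * ∑ k ∈ Icc 1 N, F (a ^ k * y, w k) *
        ((ArithmeticFunction.moebius k : ℤ) : ℂ) / (k : ℂ)) atTop (𝓝 0) ∧
      ∀ ε : ℝ, 0 < ε → ∃ N₀ : ℕ, ∀ N ≥ N₀, N ∉ E → ‖∑ k ∈ Icc 1 N, F (a ^ k * y, w k) *
        ((ArithmeticFunction.moebius k : ℤ) : ℂ)‖ ≤ ε * N := by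
  have hne : ∀ k, v k ≠ 0 := by
    intro k
    induction k with
    | zero => exact hv
    | succ k ih =>
      rw [hrec]
      intro h
      exact ih (hinj _ (h.trans (map_zero _).symm))
  have hg0 : ∀ (y : Y) (z : Metric.sphere (0 : Eu n) 1), g y z ≠ 0 := by
    intro y z h
    have h1 : (z : Eu n) = 0 := hinj _ (h.trans (map_zero _).symm)
    have h2 := mem_sphere_zero_iff_norm.1 z.2
    rw [h1, norm_zero] at h2
    exact zero_ne_one h2
  have hunit : ∀ u : Eu n, u ≠ 0 → ‖u‖⁻¹ • u ∈ Metric.sphere (0 : Eu n) 1 := by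
    intro u hu
    rw [mem_sphere_zero_iff_norm]
    exact norm_un hu
  set f : Y → Metric.sphere (0 : Eu n) 1 → Metric.sphere (0 : Eu n) 1 :=
    fun y z => ⟨‖g y z‖⁻¹ • g y z, hunit _ (hg0 y z)⟩ with hf
  have hgc : Continuous fun x : Y × Metric.sphere (0 : Eu n) 1 => g x.1 x.2 :=
    (hg.comp continuous_fst).clm_apply (continuous_subtype_val.comp continuous_snd)
  have hfc : Continuous fun x : Y × Metric.sphere (0 : Eu n) 1 => f x.1 x.2 := by
    refine Continuous.subtype_mk ?_ _
    exact (hgc.norm.inv₀ fun x => norm_ne_zero_iff.2 (hg0 x.1 x.2)).smul hgc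
  obtain ⟨h1, -⟩ := hC Y (fun y => a * y) Set.univ n (Metric.sphere (0 : Eu n) 1) f (fun y => (g y : Eu n →ₗ[ℝ] Eu n))
    (isCompact_sphere _ _) (by simp) (by
      intro z hz c hc hcz
      rw [mem_sphere_zero_iff_norm] at hz hcz
      rw [norm_smul, hz, mul_one, Real.norm_of_nonneg hc.le] at hcz
      exact hcz) (continuous_const.mul continuous_id) hfc (by
      intro y z
      exact ⟨‖g y z‖⁻¹, inv_pos.2 (norm_pos_iff.2 (hg0 y z)), rfl⟩)
  have h2 := h1 (rotation a) F
  set w : ℕ → Metric.sphere (0 : Eu n) 1 := fun k => ⟨‖v k‖⁻¹ • v k, hunit _ (hne k)⟩ with hw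
  have hiter : ∀ k, (skew (fun y => a * y) f)^[k] (y, w 0) = (a ^ k * y, w k) := by
    intro k
    induction k with
    | zero => simp
    | succ k ih =>
      rw [Function.iterate_succ_apply', ih]
      unfold skew
      simp only [Prod.mk.injEq]
      refine ⟨by rw [pow_succ']; exact (mul_assoc _ _ _).symm, ?_⟩
      rw [hf, hw]
      simp only [Subtype.mk.injEq]
      have h3 : g (a ^ k * y) (‖v k‖⁻¹ • v k) = ‖v k‖⁻¹ • v (k + 1) := by rw [map_smul, hrec]
      rw [h3, norm_smul, norm_inv, norm_norm, smul_smul]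
      congr 1
      have h4 : ‖v k‖ ≠ 0 := norm_ne_zero_iff.2 (hne k)
      have h5 : ‖v (k + 1)‖ ≠ 0 := norm_ne_zero_iff.2 (hne (k + 1))
      field_simp
  refine ⟨w, fun k => rfl, ?_, fun ε hε => ?_⟩
  · have h3 := h2.1 (y, w 0) (Set.mem_univ _)
    simp only [hiter] at h3
    exact h3
  · obtain ⟨⟨N₀, h3⟩, -, -⟩ := h2.2.1 ε hε
    refine ⟨N₀, fun N hN hNE => ?_⟩
    have h4 := h3 N hN hNE (y, w 0) (Set.mem_univ _) 0
    refine le_trans (le_of_eq ?_) h4
    congr 1
    refine sum_congr rfl fun k _ => ?_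
    unfold Pool.Agent.Results.MP_3e612f_nt.NullExtensions.seq Pool.Agent.Results.MP_3e612f_nt.NullExtensions.e
      Pool.Agent.Results.MP_3e612f_nt.NullExtensions.mu
    rw [hiter, zero_mul]
    simp only [Complex.ofReal_zero, mul_zero, zero_mul, Complex.exp_zero, mul_one]
    ring

/-- **The logarithmically averaged Sarnak conjecture for linear cocycles.** There is one set `E` of logarithmic density
zero such that (A) for extensions of almost periodic systems with linear fibres all points satisfy the conclusion of the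
logarithmically averaged Sarnak conjecture, and for `N` outside of `E` that of Sarnak's conjecture, for `μ` and `λ` and
with linear twists, in short intervals and uniformly; (B) the same for most points of arbitrary bases; (C) skew products
on compact ray sections; (D) the directions and the increments of the logarithm of the length of all solutions of linear
difference equations with coefficients along the orbits of a rotation of a compact abelian group. -/
theorem result : ∃ E : Set ℕ, LogDensityZero E ∧ PartA E ∧ PartB E ∧ PartC E ∧ PartD E := by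
  obtain ⟨E₁, hE₁, -, hB₁, -, -⟩ := Pool.Agent.Results.MP_3e612f_nt.NullExtensions.result
  obtain ⟨E₂, hE₂, -, hB₂, -, -⟩ := Pool.Agent.Results.MP_3e612f_nt.ArbitraryBase.result
  have hE : LogDensityZero (E₁ ∪ E₂) := Pool.Agent.Y842.EL.LZ_union hE₁ hE₂
  have hA : PartA (E₁ ∪ E₂) := by
    intro X Y _ _ _ _ _ S P T π J n Φ hAP hT hπ hπT hΦ F
    exact mono1 Set.subset_union_left (hB₁ X Y S P T π hAP hT hπ hπT (null1 hπ hπT hΦ P) F)
  have hB : PartB (E₁ ∪ E₂) := by
    intro X Y _ _ _ _ _ S P T π J n Φ hT hπ hπT hΦ F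
    exact mono2 Set.subset_union_right (hB₂ X Y S P T π hT hπ hπT (null1 hπ hπT hΦ P) F)
  have hC : PartC (E₁ ∪ E₂) := by
    intro Y _ _ _ S P n K f g hK h0 hray hS hf hfg
    have : CompactSpace K := isCompact_iff_compactSpace.1 hK
    have hT : Continuous (skew S f) := (hS.comp continuous_fst).prodMk hf
    exact ⟨fun hAP F => hA (Y × K) Y S P (skew S f) Prod.fst 1 n _ hAP hT continuous_fst (fun _ => rfl)
      (section_fibres (S := S) h0 hray hfg) F, fun F => hB (Y × K) Y S P (skew S f) Prod.fst 1 n _ hT continuous_fst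
      (fun _ => rfl) (section_fibres (S := S) h0 hray hfg) F⟩
  refine ⟨E₁ ∪ E₂, hE, hA, hB, hC, ?_⟩
  intro Y _ _ _ _ _ a n g hg hinj y v hv hrec
  have hne : ∀ k, v k ≠ 0 := by
    intro k
    induction k with
    | zero => exact hv
    | succ k ih =>
      rw [hrec]
      intro h
      exact ih (hinj _ (h.trans (map_zero _).symm))
  refine ⟨fun F hF => ?_, ?_⟩
  · obtain ⟨w, hw, h1, h2⟩ := concl_sphere hC a hg hinj hv hrec
      ⟨fun x => F (x.1, (x.2 : Eu n)), hF.comp (continuous_fst.prodMk (continuous_subtype_val.comp continuous_snd))⟩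
    simp only [ContinuousMap.coe_mk, hw] at h1 h2
    exact ⟨h1, h2⟩
  · have hg0 : ∀ (y : Y) (z : Metric.sphere (0 : Eu n) 1), g y z ≠ 0 := by
      intro y z h
      have h1 : (z : Eu n) = 0 := hinj _ (h.trans (map_zero _).symm)
      have h2 := mem_sphere_zero_iff_norm.1 z.2
      rw [h1, norm_zero] at h2
      exact zero_ne_one h2
    have hgc : Continuous fun x : Y × Metric.sphere (0 : Eu n) 1 => g x.1 x.2 :=
      (hg.comp continuous_fst).clm_apply (continuous_subtype_val.comp continuous_snd)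
    obtain ⟨w, hw, h1, h2⟩ := concl_sphere hC a hg hinj hv hrec
      ⟨fun x => ((Real.log ‖g x.1 x.2‖ : ℝ) : ℂ), Complex.continuous_ofReal.comp
        (hgc.norm.log fun x => norm_ne_zero_iff.2 (hg0 x.1 x.2))⟩
    have hlog : ∀ k, Real.log ‖g (a ^ k * y) (w k : Eu n)‖ = Real.log (‖v (k + 1)‖ / ‖v k‖) := by
      intro k
      rw [hw, map_smul, ← hrec, norm_smul, norm_inv, norm_norm, div_eq_inv_mul]
    simp only [ContinuousMap.coe_mk, hlog] at h1 h2
    refine ⟨?_, fun ε hε => ?_⟩
    · have h5 := (Complex.continuous_re.tendsto _).comp h1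
      rw [Complex.zero_re] at h5
      refine h5.congr fun N => ?_
      rw [Function.comp_apply]
      have h6 : (1 / (Real.log (N : ℝ) : ℂ)) * ∑ k ∈ Icc 1 N, ((Real.log (‖v (k + 1)‖ / ‖v k‖) : ℝ) : ℂ) *
          ((ArithmeticFunction.moebius k : ℤ) : ℂ) / (k : ℂ) = ((1 / Real.log (N : ℝ) *
            ∑ k ∈ Icc 1 N, Real.log (‖v (k + 1)‖ / ‖v k‖) *
              ((ArithmeticFunction.moebius k : ℤ) : ℝ) / (k : ℝ) : ℝ) : ℂ) := by
        push_cast
        rfl
      rw [h6, Complex.ofReal_re]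
    · obtain ⟨N₀, h3⟩ := h2 ε hε
      refine ⟨N₀, fun N hN hNE => ?_⟩
      have h4 := h3 N hN hNE
      refine le_trans (le_of_eq ?_) h4
      have h6 : ∑ k ∈ Icc 1 N, ((Real.log (‖v (k + 1)‖ / ‖v k‖) : ℝ) : ℂ) *
          ((ArithmeticFunction.moebius k : ℤ) : ℂ) = ((∑ k ∈ Icc 1 N, Real.log (‖v (k + 1)‖ / ‖v k‖) *
              ((ArithmeticFunction.moebius k : ℤ) : ℝ) : ℝ) : ℂ) := by
        push_cast
        rfl
      rw [h6, Complex.norm_real, Real.norm_eq_abs]

end Pool.Agent.Results.MP_3e612f_nt.LinearCocycles
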