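import Pool.Agent.Zk39.MC.UNull
import Pool.Agent.Zk39.MC.NB
import Pool.Agent.Zk39.MC.RL
import Pool.Agent.Zk39.MC.LineSys
import Pool.Agent.Zk39.MC.Meas
import Pool.Agent.Zk39.MC.FibMeas
import Pool.Agent.Zk80.FourPoint
import Pool.Agent.Zk90.BddAlg
import Pool.Agent.Results.MP_3e612f_nt.NullExtensions
import Pool.Agent.Results.MP_3e612f_nt.ArbitraryBase

/-!
# The logarithmically averaged Sarnak conjecture for extensions which are compact in the mean (helper39)

Q1 is settled for a class `𝒞` of extensions `π : (X, T) → (Y, S)` which contains the relatively null extensions and is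
closed under fibre products of any number of members, closed invariant subsets, inverse limits, factors, and
quasifactors (spaces of probability measures on the fibres): for all points if the base is almost periodic (for example
a rotation of a compact abelian group), and for all points over most points of an arbitrary base.

The members of `𝒞` are generated by coordinates of four types (`Coordinate`), which may be mixed in one system:
1. functions whose level sets are null relative to the base (all continuous functions on the extensions of the starting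
   file `NullExtensions`, in particular one-dimensional fibres: circles, graphs, dendrites, regular curves, ordered
   spaces);
2. pseudometrics with the four point property: `T^m'` does not separate two distant pairs of points which are close
   after `T^m`. This is the case for isometries, for uniformly quasi-Moebius maps, and for the elements of a group
   `𝒢` of homeomorphisms with the convergence property of Gehring and Martin, discrete or not: hyperbolic and
   relatively hyperbolic groups on their boundaries (Sierpinski carpets, Menger curves, ...), Kleinian groups on their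
   limit sets, isometries of proper hyperbolic spaces. Part (C) states this case;
3. rays in `ℝ^n` on which `T` acts linearly on each fibre (`LinearCocycles`);
4. lines in `K^n`, `K` any field with a nonarchimedean absolute value (`p`-adic fields, Laurent series, function fields,
   or any field with the trivial absolute value; `K` need not be locally compact: `N_x` may be a limit of lines, a point
   of the Berkovich space of `P^(n-1)` or of the compactification of the Bruhat-Tits building), on which `T` acts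
   linearly on each fibre: projective spaces, flag varieties, and all projective homogeneous spaces of linear groups
   over `K`. Part (D) states the case of linear difference equations `v_(k+1) = g(a^k y) v_k` with `v_k` in `K^n`.

As an example of (3) in the definition of the class: the skew products with homeomorphisms of the circle, with elements
of a hyperbolic group acting on its boundary, or with elements of `PGL_n(ℚ_p)` can be replaced by the induced maps on the
probability measures of the circle, of the boundary, or of the projective space, and by products of such systems.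

No assumption on the number of invariant measures, on Lyapunov exponents or on smoothness is made.

The proof. A function `F` has bounded mean complexity on the fibres (`Bdd`) if for each `δ` most fibres are covered by a
bounded number of sets of diameter `δ` for the mean distance of the orbits of length `H`, for all `H`. The functions with
this property form a closed subalgebra, and the property passes to `w ↦ ∫ F dμ_w` (a measure on a fibre is determined,
up to `δ`, by its masses on the cells); nullness itself has no such formal properties. The coordinates of type 4 are null: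
at each point `v` the absolute values of finitely many linear functionals are given by those of at most `n` of them, with
coefficients which depend only on the functionals (a finite family in a vector space over `K` is generated over the unit
ball by a linearly independent subfamily), so they have polynomially many patterns of comparisons. The coordinates of
type 2 are null since `2^d` independent points would be separated by a distance `c` after the first of the `d` times. The
conclusion then follows from the theorem on fibres of sublinear mean complexity of the starting files.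
-/

set_option autoImplicit false

open Finset Filter Topology MeasureTheory

namespace Pool.Agent.Results.MP_3e612f_nt.MeanCompactExtensions

open Pool.Agent.Zk39.MC (Mostly Bdd NullPair FourPoint PseudoMetric Convergence LineAction)
open Pool.Agent.Results.MP_3e612f_nt.NullExtensions (LogDensityZero AlmostPeriodic Conclusion skew LogSarnak Disjoint')

/-- the conclusion for most points of an arbitrary base (starting file `ArbitraryBase`) -/
abbrev MostConclusion {X Y : Type} [TopologicalSpace Y] (E : Set ℕ) (S : Y → Y) (P : Set Y) (T : X → X) (π : X → Y)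
    (F : X → ℂ) : Prop := Pool.Agent.Results.MP_3e612f_nt.ArbitraryBase.Conclusion E S P T π F

/-- an extension `π : (X, T) → (Y, S)` with a compact Hausdorff space `X` -/
structure Extension {Y : Type} [TopologicalSpace Y] (S : Y → Y) where
  /-- the space -/
  X : Type
  /-- its topology -/
  top : TopologicalSpace X
  compact : CompactSpace X
  t2 : T2Space X
  /-- the map -/
  T : X → X
  /-- the factor map to the base -/
  π : X → Y
  contT : Continuous T
  contπ : Continuous π
  comm : ∀ x, π (T x) = S (π x)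

attribute [instance] Extension.top Extension.compact Extension.t2

/-- `ψ` is a map of extensions -/
def Map {Y : Type} [TopologicalSpace Y] {S : Y → Y} (U V : Extension S) (ψ : U.X → V.X) : Prop :=
  Continuous ψ ∧ (∀ x, ψ (U.T x) = V.T (ψ x)) ∧ ∀ x, V.π (ψ x) = U.π x

/-- nonzero vectors `Φ(x)` of `ℝ^n` on which `T` acts on each fibre by a linear map, up to positive factors -/
def RayAction {X Y : Type} {n : ℕ} (T : X → X) (π : X → Y) (Φ : X → EuclideanSpace ℝ (Fin n)) : Prop :=
  (∀ x, Φ x ≠ 0) ∧ ∀ y, ∃ g : EuclideanSpace ℝ (Fin n) →ₗ[ℝ] EuclideanSpace ℝ (Fin n), ∀ x, π x = y →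
    ∃ c : ℝ, 0 < c ∧ Φ (T x) = c • g (Φ x)

/-- The coordinates: continuous real functions `g` on an extension such that (1) all pairs `{g ≤ s}`, `{g ≥ t}`, `s < t`
are null relative to the base, or (2) `g` is the distance to a point for a continuous pseudometric with the four point
property, or (3) `g(x) = ⟨w, Φ(x)/|Φ(x)|⟩` for rays `Φ(x)` in `ℝ^n` on which `T` acts linearly on each fibre, or
(4) `g(x) = N_x(a)`, `a` a linear functional, for lines `N_x` in `K^n` (or limits of lines) on which `T` acts linearly on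
each fibre, `K` any field with a nonarchimedean absolute value. -/
def Coordinate {Y : Type} [TopologicalSpace Y] {S : Y → Y} (P : Set Y) (U : Extension S) (g : U.X → ℝ) : Prop :=
  Continuous g ∧
  ((∀ s t : ℝ, s < t → NullPair S P U.T U.π {x | g x ≤ s} {x | t ≤ g x}) ∨
   (∃ (D : U.X → U.X → ℝ) (z : U.X), PseudoMetric D ∧ FourPoint U.T U.π D ∧ g = fun x => D x z) ∨
   (∃ (n : ℕ) (Φ : U.X → EuclideanSpace ℝ (Fin n)) (w : EuclideanSpace ℝ (Fin n)), RayAction U.T U.π Φ ∧
     g = fun x => inner ℝ w (‖Φ x‖⁻¹ • Φ x)) ∨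
   ∃ (K : Type) (_ : NormedField K) (_ : IsUltrametricDist K) (n : ℕ) (N : U.X → ((Fin n → K) →ₗ[K] K) → ℝ)
     (a : (Fin n → K) →ₗ[K] K), LineAction U.T U.π N ∧ g = fun x => N x a)

/-- The class `𝒞` of extensions of `(Y, S)`: the smallest class such that (1) `U` is in `𝒞` if the points of each fibre of
`U` are separated by coordinates and by maps to members of `𝒞` (so `𝒞` is closed under closed invariant subsets, fibre
products of any number of members and inverse limits); (2) images of members are members; (3) `W` is in `𝒞` if there are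
a member `U` and a map `w ↦ μ_w` to the probability measures on the fibres of `U` with `μ_(T w) = T μ_w`, which is
continuous and injective on each fibre (quasifactors, for example the space of all probability measures on the
fibres of `U`). -/
inductive Class {Y : Type} [TopologicalSpace Y] {S : Y → Y} (P : Set Y) : Extension S → Prop
  | separated (U : Extension S) (I : Type) (V : I → Extension S) (ψ : ∀ i, U.X → (V i).X) (hψ : ∀ i, Map U (V i) (ψ i))
      (hV : ∀ i, Class P (V i)) (𝒢 : Set (U.X → ℝ)) (h𝒢 : ∀ g ∈ 𝒢, Coordinate P U g)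
      (hsep : ∀ x x', U.π x = U.π x' → (∀ i, ψ i x = ψ i x') → (∀ g ∈ 𝒢, g x = g x') → x = x') : Class P U
  | image (U V : Extension S) (ψ : U.X → V.X) (hψ : Map U V ψ) (hs : Function.Surjective ψ) (hU : Class P U) : Class P V
  | measures (U W : Extension S) (_ : MeasurableSpace U.X) (_ : BorelSpace U.X) (μ : W.X → Measure U.X)
      (hprob : ∀ w, IsProbabilityMeasure (μ w)) (hfib : ∀ w, ∀ᵐ x ∂(μ w), U.π x = W.π w)
      (hmap : ∀ w, μ (W.T w) = (μ w).map U.T) (hcont : ∀ F : C(U.X, ℝ), Continuous fun w => ∫ x, F x ∂(μ w))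
      (hsep : ∀ w w', W.π w = W.π w' → (∀ F : C(U.X, ℝ), ∫ x, F x ∂(μ w) = ∫ x, F x ∂(μ w')) → w = w')
      (hU : Class P U) : Class P W

/-- (A) almost periodic base: all points above `P` -/
def PartA (E : Set ℕ) : Prop :=
  ∀ (Y : Type) [TopologicalSpace Y] [CompactSpace Y] [T2Space Y] (S : Y → Y) (P : Set Y), AlmostPeriodic S P →
    ∀ U : Extension S, Class P U → ∀ F : C(U.X, ℂ), Conclusion E S P U.T U.π F

/-- (B) arbitrary base: all points above most points of the base -/
def PartB (E : Set ℕ) : Prop :=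
  ∀ (Y : Type) [TopologicalSpace Y] [CompactSpace Y] [T2Space Y] (S : Y → Y) (P : Set Y),
    ∀ U : Extension S, Class P U → ∀ F : C(U.X, ℂ), MostConclusion E S P U.T U.π F

/-- both conclusions for an extension of `(Y, S)` -/
def Both {X Y : Type} [TopologicalSpace X] [TopologicalSpace Y] (E : Set ℕ) (S : Y → Y) (P : Set Y) (T : X → X)
    (π : X → Y) : Prop :=
  (AlmostPeriodic S P → ∀ F : C(X, ℂ), Conclusion E S P T π F) ∧ ∀ F : C(X, ℂ), MostConclusion E S P T π F

/-- (C) skew products with fibre maps in a group with the convergence property: the skew product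
`(y, z) ↦ (S y, f_y(z))`, and the skew product `(y, ν) ↦ (S y, (f_y)_* ν)` on `Y × Prob(Z)` -/
def PartC (E : Set ℕ) : Prop :=
  ∀ (Y Z : Type) [TopologicalSpace Y] [CompactSpace Y] [T2Space Y] [MetricSpace Z] [CompactSpace Z]
    [MeasurableSpace Z] [BorelSpace Z] (S : Y → Y)
    (P : Set Y) (𝒢 : Set (Z → Z)) (f : Y → Z → Z), id ∈ 𝒢 → (∀ g ∈ 𝒢, ∀ h ∈ 𝒢, g ∘ h ∈ 𝒢) →
    (∀ g ∈ 𝒢, ∃ h ∈ 𝒢, h ∘ g = id) → Convergence 𝒢 → (∀ y, f y ∈ 𝒢) → Continuous S →
    Continuous (fun x : Y × Z => f x.1 x.2) →
    Both E S P (skew S f) (Prod.fst : Y × Z → Y) ∧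
    ∀ T : Y × ProbabilityMeasure Z → Y × ProbabilityMeasure Z,
      (∀ w, (T w).1 = S w.1 ∧ ((T w).2 : Measure Z) = (w.2 : Measure Z).map (f w.1)) →
      Both E S P T (Prod.fst : Y × ProbabilityMeasure Z → Y)

/-- `u` is orthogonal to the Möbius function: in logarithmic averages, and in averages over `k ≤ N ∉ E` -/
def Orthogonal (E : Set ℕ) (u : ℕ → ℂ) : Prop :=
  Tendsto (fun N : ℕ => (1 / (Real.log (N : ℝ) : ℂ)) * ∑ k ∈ Icc 1 N, u k * ((ArithmeticFunction.moebius k : ℤ) : ℂ) /
    (k : ℂ)) atTop (𝓝 0) ∧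
  ∀ ε : ℝ, 0 < ε → ∃ N₀ : ℕ, ∀ N ≥ N₀, N ∉ E →
    ‖∑ k ∈ Icc 1 N, u k * ((ArithmeticFunction.moebius k : ℤ) : ℂ)‖ ≤ ε * N

/-- (D) linear difference equations over a field `K` with a nonarchimedean absolute value: `Y` is a compact abelian
group, `a` in `Y`, `g(y)` an invertible matrix with entries in `K` which depends continuously on `y`, `v_0 ≠ 0` and
`v_(k+1) = g(a^k y) v_k`. All continuous functions of `a^k y`, of `|b_i(v_k)| / |v_k|` (linear functionals `b_i`) and of
the increments `|v_(k+1)| / |v_k|` are orthogonal to the Möbius function. -/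
def PartD (E : Set ℕ) : Prop :=
  ∀ (Y K : Type) [CommGroup Y] [TopologicalSpace Y] [IsTopologicalGroup Y] [CompactSpace Y] [T2Space Y]
    [NontriviallyNormedField K] [IsUltrametricDist K] (a : Y) (n r : ℕ) (g : Y → (Fin n → K) →L[K] (Fin n → K))
    (b : Fin r → (Fin n → K) →ₗ[K] K), Continuous g → (∀ y, ∃ c : ℝ, 0 < c ∧ ∀ v, c * ‖v‖ ≤ ‖g y v‖) →
    ∀ (y : Y) (v : ℕ → Fin n → K), v 0 ≠ 0 → (∀ k, v (k + 1) = g (a ^ k * y) (v k)) →
    ∀ F : Y × (Fin r → ℝ) × ℝ → ℂ, ContinuousOn F {p | 0 < p.2.2} →
      Orthogonal E fun k => F (a ^ k * y, fun i => ‖b i (v k)‖ / ‖v k‖, ‖v (k + 1)‖ / ‖v k‖)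

section

variable {Y : Type} [TopologicalSpace Y] {S : Y → Y} {P : Set Y}

theorem bdd_coordinate {U : Extension S} {g : U.X → ℝ} (hg : Coordinate P U g) :
    Bdd S P U.T U.π (fun x => ((g x : ℝ) : ℂ)) := by
  obtain ⟨hc, hg⟩ := hg
  have hb : ∃ C, ∀ x, |g x| ≤ C := by
    obtain ⟨C, hC⟩ := isCompact_univ.exists_bound_of_continuousOn (f := g) hc.continuousOn
    exact ⟨C, fun x => hC x (Set.mem_univ _)⟩
  refine Pool.Agent.Zk39.MC.bdd_of_null hb fun s t hst => ?_
  rcases hg with h | ⟨D, z, hD, h4, rfl⟩ | ⟨n, Φ, w, hΦ, rfl⟩ | ⟨K, _, _, n, N, a, hN, rfl⟩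
  · exact h s t hst
  · refine Pool.Agent.Zk80.FP4.null_of_fourPoint hD h4 (sub_pos.2 hst) fun x hx x' hx' => ?_
    have h1 : D x z ≤ s := hx
    have h2 : t ≤ D x' z := hx'
    have h3 := hD.2.2.2 x' x z
    rw [hD.2.2.1 x' x] at h3
    linarith
  · exact Pool.Agent.Zk39.MC.null_real U.comm hΦ.1 hΦ.2 w s t hst
  · exact Pool.Agent.Zk39.MC.null_ultra U.comm hN a s t hst

variable [CompactSpace Y] [T2Space Y]

theorem bdd_class {U : Extension S} (hU : Class P U) : ∀ F : C(U.X, ℂ), Bdd S P U.T U.π F := by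
  induction hU with
  | separated U I V ψ hψ hV 𝒢 h𝒢 hsep ih =>
    refine Pool.Agent.Zk90.BA.bdd_all U.contπ U.comm
      ({F | ∃ i, ∃ f : C((V i).X, ℂ), F = fun x => f (ψ i x)} ∪ {F | ∃ g ∈ 𝒢, F = fun x => ((g x : ℝ) : ℂ)}) ?_ ?_ ?_
    · rintro F (⟨i, f, rfl⟩ | ⟨g, hg, rfl⟩)
      · exact f.continuous.comp (hψ i).1
      · exact Complex.continuous_ofReal.comp (h𝒢 g hg).1
    · rintro F (⟨i, f, rfl⟩ | ⟨g, hg, rfl⟩)
      · exact Pool.Agent.Zk90.BA.bdd_comap (hψ i).2.1 (hψ i).2.2 (ih i f)
      · exact bdd_coordinate (h𝒢 g hg)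
    · intro x x' hx h
      refine hsep x x' hx (fun i => ?_) fun g hg => ?_
      · by_contra hne
        obtain ⟨f, hf0, hf1, -⟩ := exists_continuous_zero_one_of_isClosed (isClosed_singleton (x := ψ i x))
          (isClosed_singleton (x := ψ i x')) (Set.disjoint_singleton.2 hne)
        have h1 := h (fun z => ((f (ψ i z) : ℝ) : ℂ)) (Or.inl ⟨i, ⟨fun z => ((f z : ℝ) : ℂ),
          Complex.continuous_ofReal.comp f.continuous⟩, rfl⟩)
        simp only [hf0 (Set.mem_singleton _), hf1 (Set.mem_singleton _), Pi.zero_apply, Pi.one_apply,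
          Complex.ofReal_zero, Complex.ofReal_one] at h1
        exact zero_ne_one h1
      · exact Complex.ofReal_injective (h _ (Or.inr ⟨g, hg, rfl⟩))
  | image U V ψ hψ hs hU ih =>
    intro F
    exact Pool.Agent.Zk90.BA.bdd_factor hs hψ.2.1 hψ.2.2 (ih ⟨fun x => F (ψ x), F.continuous.comp hψ.1⟩)
  | measures U W hm hb μ hprob hfib hmap hcont hsep hU ih =>
    refine Pool.Agent.Zk90.BA.bdd_all W.contπ W.comm
      {F | ∃ f : C(U.X, ℝ), F = fun w => ∫ x, ((f x : ℝ) : ℂ) ∂(μ w)} ?_ ?_ ?_
    · rintro F ⟨f, rfl⟩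
      have h1 : (fun w => ∫ x, ((f x : ℝ) : ℂ) ∂(μ w)) = fun w => ((∫ x, f x ∂(μ w) : ℝ) : ℂ) :=
        funext fun w => integral_ofReal
      rw [h1]
      exact Complex.continuous_ofReal.comp (hcont f)
    · rintro F ⟨f, rfl⟩
      have hfc : Continuous fun x => ((f x : ℝ) : ℂ) := Complex.continuous_ofReal.comp f.continuous
      obtain ⟨C, hC⟩ := isCompact_univ.exists_bound_of_continuousOn (f := fun x => ((f x : ℝ) : ℂ)) hfc.continuousOn
      exact Pool.Agent.Zk39.MC.bdd_measures U.contT μ hprob hfib hmap hfc ⟨C, fun x => hC x (Set.mem_univ _)⟩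
        (ih ⟨_, hfc⟩)
    · intro w w' hw h
      refine hsep w w' hw fun f => ?_
      have h1 : ∫ x, ((f x : ℝ) : ℂ) ∂(μ w) = ∫ x, ((f x : ℝ) : ℂ) ∂(μ w') := h _ ⟨f, rfl⟩
      have e1 : ∀ w, ∫ x, ((f x : ℝ) : ℂ) ∂(μ w) = ((∫ x, f x ∂(μ w) : ℝ) : ℂ) := fun w => integral_ofReal
      rw [e1, e1] at h1
      exact Complex.ofReal_injective h1

end

lemma mono1 {X Y : Type} {E E' : Set ℕ} (h : E ⊆ E') {S : Y → Y} {P : Set Y} {T : X → X} {π : X → Y} {F : X → ℂ}
    (hc : Conclusion E S P T π F) : Conclusion E' S P T π F := by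
  have key : ∀ u : ℕ → ℤ, Disjoint' E u S P T π F → Disjoint' E' u S P T π F := by
    intro u hu ε hε
    obtain ⟨⟨N₁, h1⟩, ⟨H₀, h2⟩, h3⟩ := hu ε hε
    refine ⟨⟨N₁, fun N hN hNE => h1 N hN fun h4 => hNE (h h4)⟩, ⟨H₀, fun H hH => ?_⟩, h3⟩
    obtain ⟨N₂, h4⟩ := h2 H hH
    exact ⟨N₂, fun N hN hNE => h4 N hN fun h5 => hNE (h h5)⟩
  exact ⟨hc.1, key _ hc.2.1, key _ hc.2.2⟩

open Pool.Agent.Results.MP_3e612f_nt.ArbitraryBase (MostShifts MostPoints)

lemma mono2 {X Y : Type} [TopologicalSpace Y] {E E' : Set ℕ} (h : E ⊆ E') {S : Y → Y} {P : Set Y} {T : X → X}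
    {π : X → Y} {F : X → ℂ} (hc : MostConclusion E S P T π F) : MostConclusion E' S P T π F := by
  have key : ∀ u : ℕ → ℤ, MostShifts E u S P T π F → MostShifts E' u S P T π F := by
    intro u hu ε hε
    obtain ⟨⟨N₁, h1⟩, h3, ⟨H₀, h2⟩⟩ := hu ε hε
    refine ⟨⟨N₁, fun N hN hNE => h1 N hN fun h4 => hNE (h h4)⟩, h3, ⟨H₀, fun H hH => ?_⟩⟩
    obtain ⟨N₂, h4⟩ := h2 H hH
    exact ⟨N₂, fun N hN hNE => h4 N hN fun h5 => hNE (h h5)⟩
  have key2 : ∀ u : ℕ → ℤ, MostPoints E u S T π F → MostPoints E' u S T π F := by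
    intro u hu _ _ ε hε
    obtain ⟨N₀, h1⟩ := hu ε hε
    refine ⟨N₀, fun N hN ρ hρ hS => ⟨fun hNE => (h1 N hN ρ hρ hS).1 fun h4 => hNE (h h4), (h1 N hN ρ hρ hS).2⟩⟩
  exact ⟨key _ hc.1, key _ hc.2.1, fun hP => ⟨key2 _ (hc.2.2 hP).1, key2 _ (hc.2.2 hP).2⟩⟩

theorem concl (E : Set ℕ) (hA : Pool.Agent.Results.MP_3e612f_nt.NullExtensions.PartA E) {Y : Type}
    [TopologicalSpace Y] [CompactSpace Y] [T2Space Y] {S : Y → Y} {P : Set Y} (hAP : AlmostPeriodic S P)
    {U : Extension S} (hU : Class P U) (F : C(U.X, ℂ)) : Conclusion E S P U.T U.π F :=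
  hA U.X Y S P U.T U.π hAP U.contT U.contπ U.comm F fun δ hδ => Pool.Agent.Zk90.BA.small_of_bdd (bdd_class hU F) δ hδ

theorem most (E : Set ℕ) (hA : Pool.Agent.Results.MP_3e612f_nt.ArbitraryBase.PartA E) {Y : Type}
    [TopologicalSpace Y] [CompactSpace Y] [T2Space Y] {S : Y → Y} {P : Set Y}
    {U : Extension S} (hU : Class P U) (F : C(U.X, ℂ)) : MostConclusion E S P U.T U.π F :=
  hA U.X Y S P U.T U.π U.contT U.contπ U.comm F fun δ hδ => Pool.Agent.Zk90.BA.small_of_bdd (bdd_class hU F) δ hδ

/-- skew products -/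
def skewExt {Y Z : Type} [TopologicalSpace Y] [CompactSpace Y] [T2Space Y] [TopologicalSpace Z] [CompactSpace Z]
    [T2Space Z] (S : Y → Y) (f : Y → Z → Z) (hS : Continuous S) (hf : Continuous (fun x : Y × Z => f x.1 x.2)) :
    Extension S where
  X := Y × Z
  top := inferInstance
  compact := inferInstance
  t2 := inferInstance
  T := skew S f
  π := Prod.fst
  contT := (hS.comp continuous_fst).prodMk hf
  contπ := continuous_fst
  comm := fun _ => rfl

theorem class_convergence {Y Z : Type} [TopologicalSpace Y] [CompactSpace Y] [T2Space Y] [MetricSpace Z]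
    [CompactSpace Z] {S : Y → Y} (P : Set Y) {𝒢 : Set (Z → Z)} {f : Y → Z → Z} (hid : id ∈ 𝒢)
    (hcomp : ∀ g ∈ 𝒢, ∀ h ∈ 𝒢, g ∘ h ∈ 𝒢) (hinv : ∀ g ∈ 𝒢, ∃ h ∈ 𝒢, h ∘ g = id) (hC : Convergence 𝒢)
    (hf : ∀ y, f y ∈ 𝒢) (hS : Continuous S) (hfc : Continuous (fun x : Y × Z => f x.1 x.2)) :
    Class P (skewExt S f hS hfc) := by
  refine Class.separated _ PEmpty (fun i => i.elim) (fun i => i.elim) (fun i => i.elim) (fun i => i.elim)
    {g | Coordinate P (skewExt S f hS hfc) g} (fun g hg => hg) ?_
  rintro ⟨y, z⟩ ⟨y', z'⟩ hy - h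
  have hy' : y = y' := hy
  have hD : PseudoMetric (fun a b : Y × Z => dist a.2 b.2) := by
    refine ⟨by fun_prop, fun x => dist_self _, fun x y => dist_comm _ _, fun x y z => dist_triangle _ _ _⟩
  have h1 := h (fun x => dist x.2 z) ⟨by
      show Continuous fun x : Y × Z => dist x.2 z
      fun_prop, Or.inr (Or.inl ⟨fun a b => dist a.2 b.2, (y, z), hD,
      Pool.Agent.Zk80.FP4.fourPoint_of_convergence hf hid hcomp hinv hC, rfl⟩)⟩
  simp only [dist_self] at h1
  rw [hy', dist_eq_zero.1 h1.symm]

lemma rotation {Y : Type} [CommGroup Y] [TopologicalSpace Y] [IsTopologicalGroup Y] [CompactSpace Y] [T2Space Y]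
    (a : Y) : AlmostPeriodic (fun y => a * y) (Set.univ : Set Y) := by
  intro c ε hε
  obtain ⟨J, N₀, h⟩ := Pool.Agent.R296.RE.UAP_rot a Set.univ c ε hε
  exact ⟨J, N₀, fun N hN y hy => h N hN _ ⟨y, hy, rfl⟩⟩

lemma orth_of {X Y : Type} {E : Set ℕ} {S : Y → Y} {T : X → X} {π : X → Y} {F : X → ℂ}
    (h : Conclusion E S Set.univ T π F) (x : X) : Orthogonal E fun k => F (T^[k] x) := by
  refine ⟨h.1 x (Set.mem_univ _), fun ε hε => ?_⟩
  obtain ⟨⟨N₀, h3⟩, -, -⟩ := h.2.1 ε hε
  refine ⟨N₀, fun N hN hNE => ?_⟩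
  have h4 := h3 N hN hNE x (Set.mem_univ _) 0
  refine le_trans (le_of_eq ?_) h4
  congr 1
  refine sum_congr rfl fun k _ => ?_
  unfold Pool.Agent.Results.MP_3e612f_nt.NullExtensions.seq Pool.Agent.Results.MP_3e612f_nt.NullExtensions.e
    Pool.Agent.Results.MP_3e612f_nt.NullExtensions.mu
  rw [zero_mul]
  simp only [Complex.ofReal_zero, mul_zero, zero_mul, Complex.exp_zero, mul_one]
  ring

theorem partD_of {E : Set ℕ} (hA : PartA E) : PartD E := by
  intro Y K _ _ _ _ _ _ _ a n r g b hg hinj y v hv hrec F hF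
  obtain ⟨X, _, _, _, T, π, N, q, ρ, hT, hπ, hπT, hN, hNc, hsep, hq, hTq, hρc, hρ0, hρq⟩ :=
    Pool.Agent.Zk39.MC.line_system (fun y => a * y) (continuous_const.mul continuous_id) g hg hinj
  set U : Extension (fun y : Y => a * y) := ⟨X, inferInstance, inferInstance, inferInstance, T, π, hT, hπ, hπT⟩ with hU
  have hcl : Class Set.univ U := by
    refine Class.separated _ PEmpty (fun i => i.elim) (fun i => i.elim) (fun i => i.elim) (fun i => i.elim)
      {g | Coordinate Set.univ U g} (fun g hg => hg) ?_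
    rintro x x' hx - h
    refine hsep x x' hx (funext fun b => ?_)
    exact h (fun x => N x b) ⟨hNc b, Or.inr (Or.inr (Or.inr ⟨K, inferInstance, inferInstance, n, N, b, hN, rfl⟩))⟩
  have hne : ∀ k, v k ≠ 0 := by
    intro k
    induction k with
    | zero => exact hv
    | succ k ih =>
      rw [hrec]
      obtain ⟨c, hc, h1⟩ := hinj (a ^ k * y)
      intro h
      have h2 := h1 (v k)
      rw [h, norm_zero] at h2
      have h3 : 0 < ‖v k‖ := norm_pos_iff.2 ih
      nlinarith
  have hiter : ∀ k, T^[k] (q y (v 0) hv) = q (a ^ k * y) (v k) (hne k) := by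
    intro k
    induction k with
    | zero => simp
    | succ k ih =>
      have hne' : g (a ^ k * y) (v k) ≠ 0 := by
        rw [← hrec]
        exact hne _
      rw [Function.iterate_succ_apply', ih, hTq _ _ _ hne']
      have e1 : a * (a ^ k * y) = a ^ (k + 1) * y := by rw [pow_succ']; exact (mul_assoc _ _ _).symm
      simp only [e1, hrec k]
  set G : C(X, ℂ) := ⟨fun x => F (π x, fun i => N x (b i), ρ x), by
    refine hF.comp_continuous (hπ.prodMk ((continuous_pi fun i => hNc (b i)).prodMk hρc)) fun x => hρ0 x⟩ with hG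
  have h1 := orth_of (hA Y (fun y => a * y) Set.univ (rotation a) U hcl G) (q y (v 0) hv)
  have h2 : (fun k => F (a ^ k * y, fun i => ‖b i (v k)‖ / ‖v k‖, ‖v (k + 1)‖ / ‖v k‖)) =
      fun k => G (T^[k] (q y (v 0) hv)) := by
    funext k
    rw [hiter, hG]
    simp only [ContinuousMap.coe_mk]
    rw [(hq _ _ _).1, (hq _ _ _).2, hρq, ← hrec]
  rw [h2]
  exact h1

/-- **Theorem.** -/
theorem result : ∃ E : Set ℕ, LogDensityZero E ∧ PartA E ∧ PartB E ∧ PartC E ∧ PartD E := by
  obtain ⟨E₁, hE₁, hA₁, -, -, -⟩ := Pool.Agent.Results.MP_3e612f_nt.NullExtensions.result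
  obtain ⟨E₂, hE₂, hA₂, -, -, -⟩ := Pool.Agent.Results.MP_3e612f_nt.ArbitraryBase.result
  have hE : LogDensityZero (E₁ ∪ E₂) := Pool.Agent.Y842.EL.LZ_union hE₁ hE₂
  have hA : PartA (E₁ ∪ E₂) := by
    intro Y _ _ _ S P hAP U hU F
    exact mono1 Set.subset_union_left (concl E₁ hA₁ hAP hU F)
  have hB : PartB (E₁ ∪ E₂) := by
    intro Y _ _ _ S P U hU F
    exact mono2 Set.subset_union_right (most E₂ hA₂ hU F)
  refine ⟨E₁ ∪ E₂, hE, hA, hB, ?_, partD_of hA⟩
  intro Y Z _ _ _ _ _ _ _ S P 𝒢 f hid hcomp hinv hC hf hS hfc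
  have hcl := class_convergence P hid hcomp hinv hC hf hS hfc
  refine ⟨⟨fun hAP F => hA Y S P hAP _ hcl F, fun F => hB Y S P _ hcl F⟩, fun T hT => ?_⟩
  obtain ⟨hTc, hm, hbs, μ, h1, h2, h3, h4, h5⟩ := Pool.Agent.Zk39.MC.fibre_measures hS hfc hT
  set W : Extension S := ⟨Y × ProbabilityMeasure Z, inferInstance, inferInstance, inferInstance, T, Prod.fst, hTc,
    continuous_fst, fun w => (hT w).1⟩ with hW
  have hWc : Class P W := Class.measures (skewExt S f hS hfc) W hm hbs μ h1 h2 h3 h4 h5 hcl
  exact ⟨fun hAP F => hA Y S P hAP W hWc F, fun F => hB Y S P W hWc F⟩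

end Pool.Agent.Results.MP_3e612f_nt.MeanCompactExtensions
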