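import Pool.Agent.Zk39.DN.Order
import Pool.Agent.Zk39.DN.Rim
import Pool.Agent.Results.MP_3e612f_nt.NullExtensions
import Pool.Agent.Results.MP_3e612f_nt.ArbitraryBase

/-!
# The logarithmically averaged Sarnak conjecture for skew products with one-dimensional fibres (helper39)

Q1 for all skew products `T(y, z) = (S y, f_y(z))` over almost periodic systems (for example rotations of compact abelian
groups), at every point, and over arbitrary systems for all points over most points of the base, if

(A) the fibre is a dendrite, or a local dendrite (a compact locally connected space which is the union of finitely many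
closed dendrites with finite frontiers, for instance a finite graph), and the maps `f_y` are monotone in the sense of
topology: preimages of connected sets are connected; or

(B) the fibre is a regular curve (a continuum with a base of open sets with finite frontiers: all local dendrites, the
Sierpinski gasket and other finitely ramified fractals, the basilica and the other connected Julia sets of hyperbolic
quadratic polynomials) and the `f_y` are homeomorphisms, or injective; or

(C) the fibre is a compact space with a linear (or circular, cut at a point) order such that each point has arbitrarily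
small neighbourhoods which are arcs (order-convex sets or complements of such sets), and preimages of arcs under the
`f_y` are arcs: the fibre may be totally disconnected, for instance a Cantor set in the line or in the circle (Denjoy
minimal sets), and the `f_y` increasing, decreasing, or of degree one on the circle.

The extension is null relative to the base, and the theorems of the starting files `NullExtensions` and `ArbitraryBase`
apply (they have only the circle and the finite graphs as fibres of this kind). The reasons are as follows.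

(A) Dendrites may have infinitely many branches at infinitely many points, and their closed connected sets have infinite VC
dimension. But disjoint pairs of closed connected sets are separated by sets (complementary components) no two of which
cross, by hereditary unicoherence, so `M` such pairs have at most `M + 1` patterns (Sauer-Shelah). For a local dendrite
the preimage of a small connected set is cut by each of the dendrites into at most `r + 1` connected pieces, `r`
being the number of the points of the frontier (boundary bumping).

(B) The orbits of all points at any `k` times are shadowed by those of at most `1 + R k` points, the preimages of the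
frontiers of a finite cover: each component of the complement of this finite set stays in a set of the cover at each of the
`k` times, and its closure contains one of these points.

(C) Disjoint pairs of order-convex sets are separated by initial segments, which are nested.

For a single map (base = point) Sarnak's conjecture is known for monotone maps of local dendrites (el Abdalaoui, Askri,
Marzougui); these systems have very simple dynamics, in contrast with skew products.
-/

set_option autoImplicit false

open Finset Filter Topology

namespace Pool.Agent.Results.MP_3e612f_nt.OneDimensionalFibres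

open Pool.Agent.Zk39.DN
open Pool.Agent.Results.MP_3e612f_nt.NullExtensions (LogDensityZero AlmostPeriodic Conclusion skew LogSarnak Disjoint')

/-- the conclusion for most points of an arbitrary base (starting file `ArbitraryBase`) -/
abbrev MostConclusion {X Y : Type} [TopologicalSpace Y] (E : Set ℕ) (S : Y → Y) (P : Set Y) (T : X → X) (π : X → Y)
    (F : X → ℂ) : Prop := Pool.Agent.Results.MP_3e612f_nt.ArbitraryBase.Conclusion E S P T π F

/-- (A) monotone maps of a local dendrite -/
def PartA (E : Set ℕ) : Prop :=
  ∀ (Y Z : Type) [TopologicalSpace Y] [CompactSpace Y] [T2Space Y] [TopologicalSpace Z]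
    (S : Y → Y) (P : Set Y) (f : Y → Z → Z), LocalDendrite Z → Continuous S → Continuous (fun x : Y × Z => f x.1 x.2) →
    (∀ y D, IsPreconnected D → IsPreconnected (f y ⁻¹' D)) →
    (AlmostPeriodic S P → ∀ F : C(Y × Z, ℂ), Conclusion E S P (skew S f) Prod.fst F) ∧
    ∀ F : C(Y × Z, ℂ), MostConclusion E S P (skew S f) Prod.fst F

/-- (B) injective maps of a regular curve -/
def PartB (E : Set ℕ) : Prop :=
  ∀ (Y Z : Type) [TopologicalSpace Y] [CompactSpace Y] [T2Space Y] [TopologicalSpace Z]
    (S : Y → Y) (P : Set Y) (f : Y → Z → Z), RegularCurve Z → Continuous S → Continuous (fun x : Y × Z => f x.1 x.2) →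
    (∀ y, Function.Injective (f y)) →
    (AlmostPeriodic S P → ∀ F : C(Y × Z, ℂ), Conclusion E S P (skew S f) Prod.fst F) ∧
    ∀ F : C(Y × Z, ℂ), MostConclusion E S P (skew S f) Prod.fst F

/-- (C) maps of an ordered fibre for which preimages of arcs are arcs -/
def PartC (E : Set ℕ) : Prop :=
  ∀ (Y Z : Type) [TopologicalSpace Y] [CompactSpace Y] [T2Space Y] [LinearOrder Z] [TopologicalSpace Z]
    [CompactSpace Z] [T2Space Z] (S : Y → Y) (P : Set Y) (f : Y → Z → Z),
    (∀ z : Z, ∀ U ∈ 𝓝 z, ∃ C ∈ 𝓝 z, C ⊆ U ∧ Arc C) → Continuous S → Continuous (fun x : Y × Z => f x.1 x.2) →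
    (∀ y C, Arc C → Arc (f y ⁻¹' C)) →
    (AlmostPeriodic S P → ∀ F : C(Y × Z, ℂ), Conclusion E S P (skew S f) Prod.fst F) ∧
    ∀ F : C(Y × Z, ℂ), MostConclusion E S P (skew S f) Prod.fst F

lemma mono1 {X Y : Type} {E E' : Set ℕ} (h : E ⊆ E') {S : Y → Y} {P : Set Y} {T : X → X} {π : X → Y} {F : X → ℂ}
    (hc : Conclusion E S P T π F) : Conclusion E' S P T π F := by
  have key : ∀ u : ℕ → ℤ, Disjoint' E u S P T π F → Disjoint' E' u S P T π F := by
    intro u hu ε hε
    obtain ⟨⟨N₁, h1⟩, ⟨H₀, h2⟩, h3⟩ := hu ε hε
    refine ⟨⟨N₁, fun N hN hNE => h1 N hN fun h4 => hNE (h h4)⟩, ⟨H₀, fun H hH => ?_⟩, h3⟩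
    obtain ⟨N₂, h4⟩ := h2 H hH
    exact ⟨N₂, fun N hN hNE => h4 N hN fun h5 => hNE (h h5)⟩
  exact ⟨hc.1, key _ hc.2.1, key _ hc.2.2⟩

open Pool.Agent.Results.MP_3e612f_nt.ArbitraryBase (MostShifts MostPoints)

lemma mono2 {X Y : Type} [TopologicalSpace Y] {E E' : Set ℕ} (h : E ⊆ E') {S : Y → Y} {P : Set Y} {T : X → X}
    {π : X → Y} {F : X → ℂ} (hc : MostConclusion E S P T π F) : MostConclusion E' S P T π F := by
  have key : ∀ u : ℕ → ℤ, MostShifts E u S P T π F → MostShifts E' u S P T π F := by
    intro u hu ε hε
    obtain ⟨⟨N₁, h1⟩, h3, ⟨H₀, h2⟩⟩ := hu ε hε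
    refine ⟨⟨N₁, fun N hN hNE => h1 N hN fun h4 => hNE (h h4)⟩, h3, ⟨H₀, fun H hH => ?_⟩⟩
    obtain ⟨N₂, h4⟩ := h2 H hH
    exact ⟨N₂, fun N hN hNE => h4 N hN fun h5 => hNE (h h5)⟩
  have key2 : ∀ u : ℕ → ℤ, MostPoints E u S T π F → MostPoints E' u S T π F := by
    intro u hu _ _ ε hε
    obtain ⟨N₀, h1⟩ := hu ε hε
    refine ⟨N₀, fun N hN ρ hρ hS => ⟨fun hNE => (h1 N hN ρ hρ hS).1 fun h4 => hNE (h h4), (h1 N hN ρ hρ hS).2⟩⟩
  exact ⟨key _ hc.1, key _ hc.2.1, fun hP => ⟨key2 _ (hc.2.2 hP).1, key2 _ (hc.2.2 hP).2⟩⟩

lemma rel_null {Y Z : Type} [TopologicalSpace Y] [CompactSpace Y] [T2Space Y] [TopologicalSpace Z]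
    (S : Y → Y) (P : Set Y) (f : Y → Z → Z)
    (h : ∀ A B : Set (Y × Z), IsClosed A → IsClosed B → Disjoint A B → ∃ d : ℕ, ∀ (y : Y) (m : Fin d → ℕ),
      ∃ τ : Fin d → Bool, ∀ x : Y × Z, x.1 = y → ∃ i, (skew S f)^[m i] x ∉ (if τ i then A else B))
    (A B : Set (Y × Z)) (hA : IsClosed A) (hB : IsClosed B) (hAB : Disjoint A B)
    (δ : ℝ) (hδ : 0 < δ) : ∃ (d : ℕ) (G : Set Y), IsClosed G ∧
      (∃ N₀ : ℕ, ∀ N ≥ N₀, ∀ y ∈ P, ∃ V : Finset ℕ, (∀ n < N, S^[n] y ∉ G → n ∈ V) ∧ (V.card : ℝ) ≤ δ * N) ∧
      ∀ y ∈ G, ∀ m : Fin d → ℕ, ∃ τ : Fin d → Bool, ∀ x : Y × Z, x.1 = y →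
        ∃ i, (skew S f)^[m i] x ∉ (if τ i then A else B) := by
  obtain ⟨d, hd⟩ := h A B hA hB hAB
  refine ⟨d, Set.univ, isClosed_univ, ⟨0, fun N _ y _ => ⟨∅, fun n _ h => absurd (Set.mem_univ _) h, ?_⟩⟩,
    fun y _ m => hd y m⟩
  rw [card_empty, Nat.cast_zero]
  positivity

/-- **The logarithmically averaged Sarnak conjecture for one-dimensional fibres.** There is one set `E` of logarithmic
density zero such that (A) for skew products with monotone maps of local dendrites, (B) with injective maps of regular
curves, (C) with maps of ordered fibres for which preimages of arcs are arcs, over almost periodic systems all points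
satisfy the conclusion of the logarithmically averaged Sarnak conjecture, and for `N` outside of `E` that of Sarnak's
conjecture, for `μ` and `λ` and with linear twists, in short intervals and uniformly; and over arbitrary systems all
points over most points of the base do. -/
theorem result : ∃ E : Set ℕ, LogDensityZero E ∧ PartA E ∧ PartB E ∧ PartC E := by
  obtain ⟨E₁, hE₁, -, hB₁, -, -⟩ := Pool.Agent.Results.MP_3e612f_nt.NullExtensions.result
  obtain ⟨E₂, hE₂, -, hB₂, -, -⟩ := Pool.Agent.Results.MP_3e612f_nt.ArbitraryBase.result
  have hE : LogDensityZero (E₁ ∪ E₂) := Pool.Agent.Y842.EL.LZ_union hE₁ hE₂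
  refine ⟨E₁ ∪ E₂, hE, ?_, ?_, ?_⟩
  · intro Y Z _ _ _ _ S P f hZ hS hf hmon
    have hfy : ∀ y, Continuous (f y) := fun y => hf.comp (continuous_const.prodMk continuous_id)
    have : CompactSpace Z := hZ.1
    have hT : Continuous (skew S f) := (hS.comp continuous_fst).prodMk hf
    have hn := rel_null S P f (null hZ S f hfy hmon)
    exact ⟨fun hAP F => mono1 Set.subset_union_left
      (hB₁ (Y × Z) Y S P (skew S f) Prod.fst hAP hT continuous_fst (fun _ => rfl) hn F),
      fun F => mono2 Set.subset_union_right
      (hB₂ (Y × Z) Y S P (skew S f) Prod.fst hT continuous_fst (fun _ => rfl) hn F)⟩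
  · intro Y Z _ _ _ _ S P f hZ hS hf hinj
    have hfy : ∀ y, Continuous (f y) := fun y => hf.comp (continuous_const.prodMk continuous_id)
    have : CompactSpace Z := hZ.1
    have hT : Continuous (skew S f) := (hS.comp continuous_fst).prodMk hf
    have hn := rel_null S P f (null_rim hZ S f hfy hinj)
    exact ⟨fun hAP F => mono1 Set.subset_union_left
      (hB₁ (Y × Z) Y S P (skew S f) Prod.fst hAP hT continuous_fst (fun _ => rfl) hn F),
      fun F => mono2 Set.subset_union_right
      (hB₂ (Y × Z) Y S P (skew S f) Prod.fst hT continuous_fst (fun _ => rfl) hn F)⟩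
  · intro Y Z _ _ _ _ _ _ _ S P f hb hS hf hmon
    have hT : Continuous (skew S f) := (hS.comp continuous_fst).prodMk hf
    have hn := rel_null S P f (null_arcs hb S f hmon)
    exact ⟨fun hAP F => mono1 Set.subset_union_left
      (hB₁ (Y × Z) Y S P (skew S f) Prod.fst hAP hT continuous_fst (fun _ => rfl) hn F),
      fun F => mono2 Set.subset_union_right
      (hB₂ (Y × Z) Y S P (skew S f) Prod.fst hT continuous_fst (fun _ => rfl) hn F)⟩

end Pool.Agent.Results.MP_3e612f_nt.OneDimensionalFibres
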