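import Pool.Agent.Results.MP_3e612f_nt.NullExtensions
import Pool.Agent.Zk39.TT.Weyl
import Pool.Agent.Zk39.TT.Avg

/-!
# The logarithmically averaged Sarnak conjecture for isometric extensions of circle bundles (helper39)

Three-step towers `X = Y × K → Y → Y₀`: `Y₀` is almost periodic (for example a rotation of a compact abelian group),
`Y → Y₀` is a bundle of circles on which `S` acts by isometries (for example `S(y, u) = (a y, φ(y) u)`), and
`T(x, z) = (S x, z + ψ(x))` with a compact abelian group `K` and a cocycle `ψ` which is `C¹` and of degree zero along the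
circles; for example `T(x, y, z) = (x + α, y + x, z + ψ(x, y))` on the torus `𝕋³`, with an arbitrary real-valued
continuous `ψ` with continuous derivative `∂ψ/∂y`. All points and all ergodic measures are allowed.
-/

set_option autoImplicit false

open Finset Filter Topology

namespace Pool.Agent.Results.MP_3e612f_nt.ThreeStepTowers

open Pool.Agent.Results.MP_3e612f_nt.NullExtensions (LogDensityZero AlmostPeriodic Conclusion)

/-- the isometric extension `T(y, z) = (S y, z + ψ(y))` -/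
def ext {Y K : Type} [Add K] (S : Y → Y) (ψ : Y → K) (x : Y × K) : Y × K := (S x.1, x.2 + ψ x.1)

/-- The circle bundle: `p` is a factor map from `(Y, S)` to `(Y₀, S₀)`, the flow `R` has period one and commutes with
`S`, and each fibre of `p` lies in one orbit of `R`. -/
structure CircleBundle {Y Y₀ : Type} [TopologicalSpace Y] [TopologicalSpace Y₀] (S : Y → Y) (S₀ : Y₀ → Y₀) (p : Y → Y₀)
    (R : Flow ℝ Y) : Prop where
  contS : Continuous S
  contp : Continuous p
  factor : ∀ y, p (S y) = S₀ (p y)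
  period : ∀ y, R 1 y = y
  invariant : ∀ (η : ℝ) (y : Y), p (R η y) = p y
  comm : ∀ (η : ℝ) (y : Y), S (R η y) = R η (S y)
  fibre : ∀ y y', p y = p y' → ∃ η : ℝ, y' = R η y

/-- the averages of each continuous function along the orbits of `S` converge uniformly to a constant -/
def UniquelyErgodic {Y : Type} [TopologicalSpace Y] (S : Y → Y) : Prop :=
  ∀ f : C(Y, ℂ), ∃ c : ℂ, ∀ ε : ℝ, 0 < ε → ∃ N₀ : ℕ, ∀ N ≥ N₀, ∀ y, ‖∑ n ∈ range N, f (S^[n] y) - N * c‖ ≤ ε * N

/-- (I) `(Y₀, S₀)` almost periodic on `P`, `Y → Y₀` a circle bundle, `T(y, z) = (S y, z + ψ(y))`, where the derivative `D`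
of the cocycle `ψ` along the circles, with values in a Banach space `V` (`ι : V → K` is a continuous homomorphism, such
as `ℝ → ℝ/ℤ`), is continuous with averages along the orbits of `S` tending to zero uniformly: the conclusion of the
conjecture for all points above `P`. -/
def PartI (E : Set ℕ) : Prop :=
  ∀ (Y₀ Y K V : Type) [TopologicalSpace Y₀] [CompactSpace Y₀] [T2Space Y₀] [TopologicalSpace Y] [CompactSpace Y]
    [AddCommGroup K] [TopologicalSpace K] [IsTopologicalAddGroup K] [CompactSpace K]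
    [NormedAddCommGroup V] [NormedSpace ℝ V] [CompleteSpace V]
    (S₀ : Y₀ → Y₀) (P : Set Y₀) (S : Y → Y) (p : Y → Y₀) (R : Flow ℝ Y) (ι : V →+ K) (ψ : Y → K) (D : Y → V),
    AlmostPeriodic S₀ P → CircleBundle S S₀ p R → Continuous ι → Continuous ψ → Continuous D →
    (∀ (η : ℝ) (y : Y), ψ (R η y) = ψ y + ι (∫ s in (0 : ℝ)..η, D (R s y))) →
    (∀ ε : ℝ, 0 < ε → ∃ m₀ : ℕ, ∀ m ≥ m₀, ∀ y, ‖∑ j ∈ range m, D (S^[j] y)‖ ≤ ε * m) →
    ∀ F : C(Y × K, ℂ), Conclusion E S₀ P (ext S ψ) (fun x => p x.1) F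

/-- (II) `Y → Y₀` a circle bundle with uniquely ergodic `S`, and `ψ = α ∘ p + ι ∘ b` where `b` has values in `ℝᵏ` and a
continuous derivative `D` along the circles -/
def PartII (E : Set ℕ) : Prop :=
  ∀ (Y₀ Y K : Type) [TopologicalSpace Y₀] [CompactSpace Y₀] [T2Space Y₀] [TopologicalSpace Y] [CompactSpace Y]
    [AddCommGroup K] [TopologicalSpace K] [IsTopologicalAddGroup K] [CompactSpace K] (k : ℕ)
    (S₀ : Y₀ → Y₀) (P : Set Y₀) (S : Y → Y) (p : Y → Y₀) (R : Flow ℝ Y) (ι : (Fin k → ℝ) →+ K) (α : Y₀ → K)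
    (b D : Y → Fin k → ℝ),
    AlmostPeriodic S₀ P → CircleBundle S S₀ p R → UniquelyErgodic S → Continuous ι → Continuous α → Continuous b →
    Continuous D → (∀ y, HasDerivAt (fun s : ℝ => b (R s y)) (D y) 0) →
    ∀ F : C(Y × K, ℂ), Conclusion E S₀ P (ext S (fun y => α (p y) + ι (b y))) (fun x => p x.1) F

/-- (III) `T(y, u, z) = (a y, c χ(y) u, z + α(y) + ι(b(y, u)))` on `Y₀ × 𝕋 × K` with a compact abelian group `Y₀`, an
element `a`, a continuous character `χ` of `Y₀` with `χ(a)` not a root of unity (so `S` may have uncountably many ergodic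
measures), and `b` with values in `ℝᵏ` and a continuous derivative `D` in `u`: all points of the system. -/
def PartIII (E : Set ℕ) : Prop :=
  ∀ (Y₀ K : Type) [CommGroup Y₀] [TopologicalSpace Y₀] [IsTopologicalGroup Y₀] [CompactSpace Y₀] [T2Space Y₀]
    [AddCommGroup K] [TopologicalSpace K] [IsTopologicalAddGroup K] [CompactSpace K] (k : ℕ)
    (a : Y₀) (χ : Y₀ →* Circle) (c : Circle) (ι : (Fin k → ℝ) →+ K) (α : Y₀ → K) (b D : Y₀ × Circle → Fin k → ℝ),
    Continuous χ → (∀ n : ℕ, 1 ≤ n → χ a ^ n ≠ 1) → Continuous ι → Continuous α → Continuous b → Continuous D →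
    (∀ (y : Y₀) (u : Circle), HasDerivAt (fun s : ℝ => b (y, Circle.exp (2 * Real.pi * s) * u)) (D (y, u)) 0) →
    ∀ F : C((Y₀ × Circle) × K, ℂ), Conclusion E (fun y => a * y) Set.univ
      (fun x => ((a * x.1.1, c * χ x.1.1 * x.1.2), x.2 + (α x.1.1 + ι (b x.1)))) (fun x => x.1.1) F

open Pool.Agent.R296.RE Pool.Agent.R296.VC Pool.Agent.Zk39.TT
open Pool.Agent.Results.MP_3e612f_nt.NullExtensions (SmallFibres mu lam concl_of uap_of kf_of)

theorem part_one_aux {E : Set ℕ} (hE : LogDensityZero E) (hmu : ∀ n, |mu n| ≤ 1) (hlam : ∀ n, |lam n| ≤ 1)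
    (h1 : Kf mu E) (h2 : Kf lam E) {Y₀ Y K V : Type} [TopologicalSpace Y₀] [CompactSpace Y₀] [T2Space Y₀]
    [TopologicalSpace Y] [CompactSpace Y] [AddCommGroup K] [TopologicalSpace K] [IsTopologicalAddGroup K]
    [CompactSpace K] [NormedAddCommGroup V] [NormedSpace ℝ V]
    {S₀ : Y₀ → Y₀} {P : Set Y₀} {S : Y → Y} {p : Y → Y₀} {R : Flow ℝ Y} {ι : V →+ K} {ψ : Y → K} {D : Y → V}
    (hAP : ∀ c : C(Y₀, ℂ), UAP {b | ∃ y ∈ P, b = fun n => c (S₀^[n] y)}) (hB : CircleBundle S S₀ p R)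
    (hι : Continuous ι) (hψc : Continuous ψ) (hD : Continuous D)
    (hψ : ∀ (η : ℝ) (y : Y), ψ (R η y) = ψ y + ι (∫ s in (0 : ℝ)..η, D (R s y)))
    (havg : ∀ ε : ℝ, 0 < ε → ∃ m₀ : ℕ, ∀ m ≥ m₀, ∀ y, ‖∑ j ∈ range m, D (S^[j] y)‖ ≤ ε * m)
    (F : C(Y × K, ℂ)) : Conclusion E S₀ P (ext S ψ) (fun x => p x.1) F := by
  refine concl_of (T := ext S ψ) (π := fun x : Y × K => p x.1) hE hmu hlam h1 h2 hAP ?_
    (hB.contp.comp continuous_fst) (fun x => hB.factor x.1) F ?_
  · exact (hB.contS.comp continuous_fst).prodMk (continuous_snd.add (hψc.comp continuous_fst))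
  · intro δ hδ
    obtain ⟨H, hH, h3⟩ := cover hB.period hB.comm hB.contS p hB.fibre hD ι hι hψ havg F hδ
    exact ⟨H, hH, Set.univ, isClosed_univ, Mostly_univ hδ.le, fun y _ => h3 y⟩

/-- the product bundle of circles -/
theorem prod_bundle {Y₀ : Type} [CommGroup Y₀] [TopologicalSpace Y₀] [IsTopologicalGroup Y₀] (a : Y₀)
    {χ : Y₀ →* Circle} (hχ : Continuous χ) (c : Circle) :
    CircleBundle (skewChar a χ c) (fun y => a * y) Prod.fst (rotFlow Y₀) where
  contS := by
    unfold skewChar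
    exact (continuous_const.mul continuous_fst).prodMk
      ((continuous_const.mul (hχ.comp continuous_fst)).mul continuous_snd)
  contp := continuous_fst
  factor := fun _ => rfl
  period := rot_one
  invariant := fun _ _ => rfl
  comm := fun η y => skewChar_rot a χ c η y
  fibre := by
    rintro ⟨y, u⟩ ⟨y', u'⟩ h
    simp only at h
    subst h
    refine ⟨Complex.arg (u' * u⁻¹ : Circle) / (2 * Real.pi), ?_⟩
    show (y, u') = rot _ (y, u)
    unfold rot
    rw [mul_div_cancel₀ _ (by positivity), Circle.exp_arg, inv_mul_cancel_right]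

/-- **Theorem.** There is one set `E` of logarithmic density zero such that (I), (II) and (III) hold. -/
theorem result : ∃ E : Set ℕ, LogDensityZero E ∧ PartI E ∧ PartII E ∧ PartIII E := by
  obtain ⟨E₁, hE₁, h1⟩ := Pool.Agent.Y842.PH.one_E (Pool.Agent.Y304.U.avc Pool.Agent.Y304.U.pw)
    Pool.Agent.TH823.MRS.mob Pool.Agent.TH823.MRS.mob_bdd Pool.Agent.TH823.MRS.mob_flip
    Pool.Agent.TH823.MRS.expo_mob
  obtain ⟨E₂, hE₂, h2⟩ := Pool.Agent.Y842.PH.one_E (Pool.Agent.Y304.U.avc Pool.Agent.Y304.U.pw)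
    Pool.Agent.H376R2.MR.lam Pool.Agent.Y842.EL.abs_lam Pool.Agent.TH823.MRS.lam_flip Pool.Agent.TH823.MRS.expo_lam
  have hE : LogDensityZero (E₁ ∪ E₂) := Pool.Agent.Y842.EL.LZ_union hE₁ hE₂
  have hmu : ∀ n, |mu n| ≤ 1 := fun n => ArithmeticFunction.abs_moebius_le_one
  have hlam : ∀ n, |lam n| ≤ 1 := fun n => by
    unfold lam
    rw [abs_pow, abs_neg, abs_one, one_pow]
  have s1 : Kf mu (E₁ ∪ E₂) := kf_of h1 Set.subset_union_left
  have s2 : Kf lam (E₁ ∪ E₂) := kf_of h2 Set.subset_union_right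
  refine ⟨E₁ ∪ E₂, hE, ?_, ?_, ?_⟩
  · intro Y₀ Y K V _ _ _ _ _ _ _ _ _ _ _ _ S₀ P S p R ι ψ D hAP hB hι hψc hD hψ havg F
    exact part_one_aux hE hmu hlam s1 s2 (uap_of hAP) hB hι hψc hD hψ havg F
  · intro Y₀ Y K _ _ _ _ _ _ _ _ _ k S₀ P S p R ι α b D hAP hB hue hι hα hb hD hder F
    refine part_one_aux hE hmu hlam s1 s2 (uap_of hAP) hB hι ((hα.comp hB.contp).add (hι.comp hb)) hD
      (fun η y => ?_) (avg_D (diff_ue hB.comm hue) hb hD hder) F
    show α (p (R η y)) + ι (b (R η y)) = α (p y) + ι (b y) + _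
    rw [hB.invariant, ftc hD hder, map_sub]
    abel
  · intro Y₀ K _ _ _ _ _ _ _ _ _ k a χ c ι α b D hχ ha hι hα hb hD hder F
    have hder' : ∀ z : Y₀ × Circle, HasDerivAt (fun s : ℝ => b (rotFlow Y₀ s z)) (D z) 0 := fun z => hder z.1 z.2
    exact part_one_aux hE hmu hlam s1 s2 (fun c => UAP_rot a _ c) (prod_bundle a hχ c) hι
      (ψ := fun z => α z.1 + ι (b z)) ((hα.comp continuous_fst).add (hι.comp hb)) hD
      (fun η y => by
        show α y.1 + ι (b (rotFlow Y₀ η y)) = α y.1 + ι (b y) + _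
        rw [ftc hD hder', map_sub]
        abel) (avg_D (fun s f ε hε => diff_avg ha s f ε hε) hb hD hder') F

end Pool.Agent.Results.MP_3e612f_nt.ThreeStepTowers
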